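import Pool.Agent.H12.KP.Targets4

/-!
# CERT: the certificate over a complete base
-/

namespace Pool.Agent.H26.KP

open Pool.Agent.H12.KP Polynomial TensorProduct

universe u v

/-- elements which are `1` modulo `J` are invertible modulo `J ^ k` -/
theorem geom_inv {R : Type*} [CommRing R] (J : Ideal R) (x : R) (hx : x - 1 ∈ J) (k : ℕ) :
    ∃ w, x * w - 1 ∈ J ^ k := by
  refine ⟨∑ i ∈ Finset.range k, (1 - x) ^ i, ?_⟩
  have h1 := mul_neg_geom_sum (1 - x) k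
  rw [sub_sub_cancel] at h1
  rw [h1, sub_sub_cancel_left]
  refine neg_mem (Ideal.pow_mem_pow ?_ k)
  have := neg_mem hx
  rwa [neg_sub] at this

theorem mem_span_pow {R : Type*} [CommRing R] (P x : R) (k : ℕ) :
    x ∈ (Ideal.span {P}) ^ k ↔ P ^ k ∣ x := by
  rw [Ideal.span_singleton_pow, Ideal.mem_span_singleton]

theorem pow_sub_one {R : Type*} [CommRing R] (J : Ideal R) (x : R) (hx : x - 1 ∈ J) (q : ℕ) :
    x ^ q - 1 ∈ J := by
  have h := sub_dvd_pow_sub_pow x 1 q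
  rw [one_pow] at h
  exact J.mem_of_dvd h hx

theorem pf_CERT (hALG : S_ALG.{u, v}) (hIN : S_INEL.{u, v}) (hK : S_KRULL.{v}) :
    S_CERT.{u, v} := by
  intro A B0 B1 B01 _ _ _ _ _ _ _ _ _ C p hp π ε e a r hpε hε ha hea hcompl hinj hM b c b1 N j hFG
    hb hbinv hsplit
  obtain ⟨η0, η1, t, τ, A1, A2, A3, A4, A5, A6⟩ := hALG A B0 B1 B01 C p hp π ε e a r hpε hε ha hea
    hcompl hinj b c b1 N j hFG hb hbinv hsplit
  obtain ⟨i, j', hj', hi⟩ := hIN A B1 π C.S hcompl hM N τ A3 A4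
  generalize algebraMap A B0 π = P0 at A2 A5 ⊢
  generalize algebraMap A B1 π = P1 at A3 A4 A6 hj' hi ⊢
  obtain ⟨q, hq⟩ : ∃ q, q = p ^ r := ⟨_, rfl⟩
  obtain ⟨n0, hn0⟩ : ∃ n, n = r * e + a := ⟨_, rfl⟩
  rw [← hq, ← hn0] at A5
  rw [← hq] at A1 A6
  rw [← hq, ← hn0]
  obtain ⟨f, hf⟩ : ∃ f, f = b + P0 ^ n0 * c := ⟨_, rfl⟩
  rw [← hf] at A5 ⊢
  have hn1 : 1 ≤ n0 := by omega
  -- (2)
  obtain ⟨s, hs, f0, e2⟩ := hK B0 (Ideal.span {P0}) η0 f fun k =>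
    ⟨t k ^ q, (mem_span_pow _ _ _).2 (A5 k)⟩
  obtain ⟨s0, rfl⟩ := Ideal.mem_span_singleton.1 hs
  -- (3)
  have ht : ∀ k, t k ^ q - 1 ∈ Ideal.span {P0} := fun k =>
    pow_sub_one _ _ (Ideal.mem_span_singleton.2 (A2 k)) q
  obtain ⟨s', hs', f1, e3⟩ := hK B0 (Ideal.span {P0}) f η0 fun k => by
    obtain ⟨w, hw⟩ := geom_inv _ _ (ht k) k
    refine ⟨w, ?_⟩
    have h1 : f - η0 * w = -(f * (t k ^ q * w - 1)) + -((η0 - f * t k ^ q) * w) := by ring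
    rw [h1]
    exact add_mem (neg_mem (Ideal.mul_mem_left _ _ hw))
      (neg_mem (Ideal.mul_mem_right _ _ ((mem_span_pow _ _ _).2 (A5 k))))
  obtain ⟨s1, rfl⟩ := Ideal.mem_span_singleton.1 hs'
  -- (4)
  have e4 : ∃ g0, η0 = b + P0 * g0 := by
    have h1 : η0 - b ∈ Ideal.span {P0} := by
      have h2 : η0 - b = (η0 - f * t 1 ^ q) + f * (t 1 ^ q - 1) + P0 ^ n0 * c := by
        rw [hf]
        ring
      have h3 : η0 - f * t 1 ^ q ∈ Ideal.span {P0} := by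
        rw [Ideal.mem_span_singleton]
        have := A5 1
        rwa [pow_one] at this
      have h4 : P0 ^ n0 * c ∈ Ideal.span {P0} := by
        rw [Ideal.mem_span_singleton]
        exact (dvd_pow_self P0 (by omega)).mul_right c
      rw [h2]
      exact add_mem (add_mem h3 (Ideal.mul_mem_left _ _ (ht 1))) h4
    obtain ⟨g0, hg0⟩ := Ideal.mem_span_singleton.1 h1
    exact ⟨g0, by rw [← hg0]; ring⟩
  obtain ⟨g0, e4⟩ := e4
  -- (5)
  have k5 : ∀ k, b1 * i ^ q - η1 * (1 - j' k) ^ q ∈ (Ideal.span {P1}) ^ k := by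
    intro k
    have h1 : P1 ^ k ∣ i ^ q - (τ k * (1 - j' k)) ^ q := (hi k).trans (sub_dvd_pow_sub_pow _ _ q)
    have h2 : b1 * i ^ q - η1 * (1 - j' k) ^ q = b1 * (i ^ q - (τ k * (1 - j' k)) ^ q) +
        -((η1 - b1 * τ k ^ q) * (1 - j' k) ^ q) := by
      rw [mul_pow]
      ring
    rw [h2]
    exact add_mem (Ideal.mul_mem_left _ _ ((mem_span_pow _ _ _).2 h1))
      (neg_mem (Ideal.mul_mem_right _ _ ((mem_span_pow _ _ _).2 (A6 k))))
  obtain ⟨s'', hs'', g1, e5⟩ := hK B1 (Ideal.span {P1}) (b1 * i ^ q) η1 fun k => ⟨_, k5 k⟩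
  obtain ⟨s2, rfl⟩ := Ideal.mem_span_singleton.1 hs''
  -- (6)
  have hle : Ideal.span {P1} ≤ Ideal.span {P1, C.S} := Ideal.span_mono (by simp)
  obtain ⟨s3', hs3', d1, e6⟩ := hK B1 (Ideal.span {P1, C.S}) η1 (b1 * i ^ q) fun k => by
    have h1 : (1 - j' k) ^ q - 1 ∈ Ideal.span {P1, C.S} := by
      refine pow_sub_one _ _ ?_ q
      rw [sub_sub_cancel_left]
      exact neg_mem (hj' k)
    obtain ⟨w, hw⟩ := geom_inv _ _ h1 k
    refine ⟨w, ?_⟩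
    have h2 : η1 - b1 * i ^ q * w = -(η1 * ((1 - j' k) ^ q * w - 1)) +
        -((b1 * i ^ q - η1 * (1 - j' k) ^ q) * w) := by ring
    rw [h2]
    exact add_mem (neg_mem (Ideal.mul_mem_left _ _ hw))
      (neg_mem (Ideal.mul_mem_right _ _ (Ideal.pow_right_mono hle k (k5 k))))
  obtain ⟨s4, s5, hs45⟩ := Ideal.mem_span_pair.1 hs3'
  refine ⟨η0, f0, f1, s0, s1, g0, η1, i, g1, d1, s2, 0, s4, s5, A1, e2, e3, e4, ?_, ?_⟩
  · rw [mul_zero, add_zero]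
    exact e5
  · rw [← e6, ← hs45]
    ring

end Pool.Agent.H26.KP
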